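import Mathlib

/-!
* `IsInduced M N R` : `M` is the matroid which is induced on its ground set from `N` by the bipartite graph `R`.
-/

set_option autoImplicit false

namespace Pool.Agent.Un25

open scoped Matroid

universe u

/-- `M` is the matroid which is induced on its ground set from `N` by the bipartite graph `R`: a set is independent
iff it can be matched, along edges of the graph, onto an independent set of `N`. -/
def IsInduced {α β : Type u} (M : Matroid α) (N : Matroid β) (R : α → β → Prop) : Prop :=
  ∀ I, M.Indep I ↔ I ⊆ M.E ∧ ∃ g : α → β, Set.InjOn g I ∧ (∀ x ∈ I, R x (g x)) ∧ N.Indep (g '' I)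

end Pool.Agent.Un25
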