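import Mathlib

/-!
Existence of the principal extension of a finite matroid.
-/

set_option autoImplicit false

namespace Pool.Agent.Un25

open scoped Matroid

variable {α : Type*} {M : Matroid α} {G : Set α} {e : α} {I J : Set α}

/-- Some element of `G` can be added to `I`. -/
def Opn (M : Matroid α) (G : Set α) (I : Set α) : Prop := ∃ g ∈ G, g ∉ I ∧ M.Indep (insert g I)

theorem Opn.indep (h : Opn M G I) : M.Indep I := by
  obtain ⟨g, -, -, h⟩ := h
  exact h.subset (Set.subset_insert _ _)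

theorem opn_iff (hG : G ⊆ M.E) (hI : M.Indep I) : Opn M G I ↔ ¬ G ⊆ M.closure I := by
  rw [Set.not_subset]
  constructor
  · rintro ⟨g, hg, hgI, h⟩
    exact ⟨g, hg, (hI.notMem_closure_iff_of_notMem hgI (hG hg)).2 h⟩
  · rintro ⟨g, hg, h⟩
    have hgI : g ∉ I := fun h' => h (M.subset_closure I hI.subset_ground h')
    exact ⟨g, hg, hgI, (hI.notMem_closure_iff_of_notMem hgI (hG hg)).1 h⟩

theorem aug [M.Finite] (hI : M.Indep I) (hJ : M.Indep J) (h : I.ncard < J.ncard) :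
    ∃ x ∈ J, x ∉ I ∧ M.Indep (insert x I) := by
  have hIf := M.ground_finite.subset hI.subset_ground
  have hJf := M.ground_finite.subset hJ.subset_ground
  have h' : I.encard < J.encard := by
    rw [← hIf.cast_ncard_eq, ← hJf.cast_ncard_eq]
    exact_mod_cast h
  obtain ⟨x, hx, hx'⟩ := hI.augment hJ h'
  exact ⟨x, hx.1, hx.2, hx'⟩

theorem ncard_ins {g : α} (hI : I.Finite) (h : g ∉ I) : (insert g I).ncard = I.ncard + 1 :=
  Set.ncard_insert_of_notMem h hI

theorem aug_opn_opn [M.Finite] (hI : Opn M G I) (hJ : Opn M G J) (h : I.ncard < J.ncard) :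
    ∃ x ∈ J, x ∉ I ∧ Opn M G (insert x I) := by
  have hIi := hI.indep
  have hJi := hJ.indep
  have hIf := M.ground_finite.subset hIi.subset_ground
  have hJf := M.ground_finite.subset hJi.subset_ground
  obtain ⟨g, hg, hgI, h1⟩ := hI
  obtain ⟨k, hk, hkJ, h2⟩ := hJ
  obtain ⟨z, hz, hz', h3⟩ := aug h1 h2 (by rw [ncard_ins hIf hgI, ncard_ins hJf hkJ]; omega)
  have hzI : z ∉ I := fun h => hz' (Set.mem_insert_of_mem _ h)
  have hzg : z ≠ g := fun h => hz' (h ▸ Set.mem_insert _ _)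
  rcases hz with rfl | hz
  · -- `z = k`
    obtain ⟨x, hx, hxI, h4⟩ := aug hIi hJi h
    have hc : (insert x I).ncard < (insert z (insert g I)).ncard := by
      rw [ncard_ins hIf hxI, ncard_ins (hIf.insert g) (fun h => by
        rcases h with h | h
        · exact hzg h
        · exact hzI h), ncard_ins hIf hgI]
      omega
    obtain ⟨w, hw, hwx, h5⟩ := aug h4 h3 hc
    refine ⟨x, hx, hxI, w, ?_, hwx, h5⟩
    rcases hw with rfl | rfl | hw
    · exact hk
    · exact hg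
    · exact absurd (Set.mem_insert_of_mem _ hw) hwx
  · refine ⟨z, hz, hzI, g, hg, ?_, ?_⟩
    · rintro (h | h)
      · exact hzg h.symm
      · exact hgI h
    · rwa [Set.insert_comm]

theorem aug_opn_indep [M.Finite] (hI : Opn M G I) (hJ : M.Indep J) (h : I.ncard + 1 < J.ncard) :
    ∃ x ∈ J, x ∉ I ∧ Opn M G (insert x I) := by
  have hIf := M.ground_finite.subset hI.indep.subset_ground
  obtain ⟨g, hg, hgI, h1⟩ := hI
  obtain ⟨z, hz, hz', h3⟩ := aug h1 hJ (by rw [ncard_ins hIf hgI]; omega)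
  refine ⟨z, hz, fun h => hz' (Set.mem_insert_of_mem _ h), g, hg, ?_, ?_⟩
  · rintro (h | h)
    · exact hz' (h ▸ Set.mem_insert _ _)
    · exact hgI h
  · rwa [Set.insert_comm]

/-- The independent sets of the principal extension. -/
def PI (M : Matroid α) (G : Set α) (e : α) (I : Set α) : Prop :=
  (e ∉ I ∧ M.Indep I) ∨ (e ∈ I ∧ Opn M G (I \ {e}))

theorem pi_subset (hJ : PI M G e J) (h : I ⊆ J) : PI M G e I := by
  rcases hJ with ⟨h1, h2⟩ | ⟨h1, g, hg, hgJ, h2⟩
  · exact Or.inl ⟨fun h3 => h1 (h h3), h2.subset h⟩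
  · by_cases heI : e ∈ I
    · have hs : I \ {e} ⊆ J \ {e} := Set.sdiff_subset_sdiff_left h
      exact Or.inr ⟨heI, g, hg, fun h3 => hgJ (hs h3), h2.subset (Set.insert_subset_insert hs)⟩
    · refine Or.inl ⟨heI, h2.subset ?_⟩
      intro x hx
      exact Set.mem_insert_of_mem _ ⟨h hx, fun h3 => heI (h3 ▸ hx)⟩

theorem sdiff_insert_of_ne {x : α} (h : x ≠ e) : (insert x I) \ {e} = insert x (I \ {e}) := by
  ext y
  simp only [Set.mem_sdiff, Set.mem_insert_iff, Set.mem_singleton_iff]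
  constructor
  · rintro ⟨h1 | h1, h2⟩
    · exact Or.inl h1
    · exact Or.inr ⟨h1, h2⟩
  · rintro (h1 | ⟨h1, h2⟩)
    · exact ⟨Or.inl h1, h1 ▸ h⟩
    · exact ⟨Or.inr h1, h2⟩

theorem pi_aug [M.Finite] (hI : PI M G e I) (hJ : PI M G e J)
    (h : I.ncard < J.ncard) : ∃ x ∈ J, x ∉ I ∧ PI M G e (insert x I) := by
  have fin : ∀ {K : Set α}, PI M G e K → K.Finite := by
    intro K hK
    rcases hK with ⟨-, h2⟩ | ⟨-, h2⟩
    · exact M.ground_finite.subset h2.subset_ground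
    · have := M.ground_finite.subset h2.indep.subset_ground
      exact (this.insert e).subset (by rw [Set.insert_sdiff_singleton]; exact Set.subset_insert _ _)
  have hIf := fin hI
  have hJf := fin hJ
  rcases hI with ⟨hI1, hI2⟩ | ⟨hI1, hI2⟩ <;> rcases hJ with ⟨hJ1, hJ2⟩ | ⟨hJ1, hJ2⟩
  · obtain ⟨x, hx, hxI, h1⟩ := aug hI2 hJ2 h
    refine ⟨x, hx, hxI, Or.inl ⟨?_, h1⟩⟩
    rintro (h2 | h2)
    · exact hJ1 (h2 ▸ hx)
    · exact hI1 h2
  · obtain ⟨k, hk, hkJ, h2⟩ := hJ2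
    have hJc : (J \ {e}).ncard + 1 = J.ncard := Set.ncard_sdiff_singleton_add_one hJ1 hJf
    obtain ⟨z, hz, hzI, h3⟩ := aug hI2 h2 (by
      rw [ncard_ins (hJf.subset Set.sdiff_subset) hkJ]
      omega)
    rcases hz with rfl | hz
    · refine ⟨e, hJ1, hI1, Or.inr ⟨Set.mem_insert _ _, z, hk, ?_, ?_⟩⟩
      · rw [Set.insert_sdiff_self_of_notMem hI1]
        exact hzI
      · rw [Set.insert_sdiff_self_of_notMem hI1]
        exact h3
    · refine ⟨z, hz.1, hzI, Or.inl ⟨?_, h3⟩⟩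
      rintro (h4 | h4)
      · exact hz.2 h4.symm
      · exact hI1 h4
  · have hIc : (I \ {e}).ncard + 1 = I.ncard := Set.ncard_sdiff_singleton_add_one hI1 hIf
    obtain ⟨x, hx, hxI, h1⟩ := aug_opn_indep hI2 hJ2 (by omega)
    have hxe : x ≠ e := fun h2 => hJ1 (h2 ▸ hx)
    refine ⟨x, hx, fun h2 => hxI ⟨h2, hxe⟩, Or.inr ⟨Set.mem_insert_of_mem _ hI1, ?_⟩⟩
    rw [sdiff_insert_of_ne hxe]
    exact h1
  · have hIc : (I \ {e}).ncard + 1 = I.ncard := Set.ncard_sdiff_singleton_add_one hI1 hIf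
    have hJc : (J \ {e}).ncard + 1 = J.ncard := Set.ncard_sdiff_singleton_add_one hJ1 hJf
    obtain ⟨x, hx, hxI, h1⟩ := aug_opn_opn hI2 hJ2 (by omega)
    have hxe : x ≠ e := hx.2
    refine ⟨x, hx.1, fun h2 => hxI ⟨h2, hxe⟩, Or.inr ⟨Set.mem_insert_of_mem _ hI1, ?_⟩⟩
    rw [sdiff_insert_of_ne hxe]
    exact h1

/-- The principal extension exists. -/
theorem exists_ext (M : Matroid α) [M.Finite] (G : Set α) (e : α) :
    ∃ M' : Matroid α, M'.Finite ∧ M'.E = insert e M.E ∧ ∀ I, M'.Indep I ↔ PI M G e I := by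
  have hfin : (insert e M.E).Finite := M.ground_finite.insert e
  refine ⟨(IndepMatroid.ofFinite hfin (PI M G e) (Or.inl ⟨Set.notMem_empty _, M.empty_indep⟩)
    (fun I J hJ h => pi_subset hJ h) (fun I J hI hJ h => pi_aug hI hJ h) ?_).matroid, ?_, ?_, ?_⟩
  · intro I hI
    rcases hI with ⟨-, h2⟩ | ⟨-, h2⟩
    · exact h2.subset_ground.trans (Set.subset_insert _ _)
    · intro x hx
      by_cases hxe : x = e
      · exact hxe ▸ Set.mem_insert _ _
      · exact Set.mem_insert_of_mem _ (h2.indep.subset_ground ⟨hx, hxe⟩)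
  · exact ⟨hfin⟩
  · rfl
  · intro I
    rfl

theorem isBase_iff_card [M.Finite] {B : Set α} : M.IsBase B ↔ M.Indep B ∧ B.encard = M.eRank := by
  constructor
  · exact fun h => ⟨h.indep, h.encard_eq_eRank⟩
  · rintro ⟨h1, h2⟩
    obtain ⟨B', hB', hsub⟩ := h1.exists_isBase_superset
    have h3 : B'.encard ≤ B.encard := by rw [h2, hB'.encard_eq_eRank]
    have h4 : B = B' := Set.Finite.eq_of_subset_of_encard_le'
      (M.ground_finite.subset hB'.subset_ground) hsub h3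
    exact h4 ▸ hB'

/-- The bases of the principal extension, if `M` is not of rank zero or `G` contains only loops; in
general the independent sets determine the bases. -/
theorem isBase_ext {M' : Matroid α} [M.Finite] [M'.Finite] (hG : G ⊆ M.E) (he : e ∉ M.E)
    (hI : ∀ I, M'.Indep I ↔ PI M G e I) (B : Set α) :
    M'.IsBase B ↔ (e ∉ B ∧ M.IsBase B) ∨ (e ∈ B ∧ M.Indep (B \ {e}) ∧ B.encard = M.eRank ∧
      ¬ G ⊆ M.closure (B \ {e})) := by
  -- independent sets of `M'` have at most `M.eRank` elements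
  have hle : ∀ I, PI M G e I → I.encard ≤ M.eRank := by
    rintro I (⟨-, h2⟩ | ⟨h1, g, hg, hgI, h2⟩)
    · exact h2.encard_le_eRank
    · have h3 : I.encard = (insert g (I \ {e})).encard := by
        rw [Set.encard_insert_of_notMem hgI, Set.encard_sdiff_singleton_add_one h1]
      rw [h3]
      exact h2.encard_le_eRank
  have hr : M'.eRank = M.eRank := by
    obtain ⟨B0, hB0⟩ := M.exists_isBase
    have h1 : M'.Indep B0 := (hI B0).2 (Or.inl ⟨fun h => he (hB0.subset_ground h), hB0.indep⟩)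
    refine le_antisymm ?_ ?_
    · obtain ⟨B1, hB1⟩ := M'.exists_isBase
      rw [← hB1.encard_eq_eRank]
      exact hle B1 ((hI B1).1 hB1.indep)
    · rw [← hB0.encard_eq_eRank]
      exact h1.encard_le_eRank
  rw [isBase_iff_card, hI, hr]
  constructor
  · rintro ⟨⟨h1, h2⟩ | ⟨h1, h2⟩, h3⟩
    · exact Or.inl ⟨h1, isBase_iff_card.2 ⟨h2, h3⟩⟩
    · exact Or.inr ⟨h1, h2.indep, h3, (opn_iff hG h2.indep).1 h2⟩
  · rintro (⟨h1, h2⟩ | ⟨h1, h2, h3, h4⟩)
    · exact ⟨Or.inl ⟨h1, h2.indep⟩, h2.encard_eq_eRank⟩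
    · exact ⟨Or.inr ⟨h1, (opn_iff hG h2).2 h4⟩, h3⟩

end Pool.Agent.Un25
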