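import Pool.Agent.Un25.Induced
import Pool.Agent.EX18.MapC
import Pool.Agent.EX18.Minor
import Pool.Agent.FT56.PMain

/-!
`TConn` is inherited by the matroid which is induced by a bipartite graph.
-/

set_option autoImplicit false

namespace Pool.Agent.Un25

open Pool.Agent.EX18 Pool.Agent.EX91
open scoped Matroid

universe u

theorem tconn_inst' {α : Type*} (d d' : DecidableEq α) {M : Matroid α} (h : @TConn α d M) : @TConn α d' M := by
  have e : d = d' := Subsingleton.elim d d'
  rw [← e]
  exact h

theorem tconn_induced {α β : Type u} [DecidableEq α] [DecidableEq β] {M : Matroid α} {N : Matroid β}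
    [M.Finite] [N.Finite] {R : α → β → Prop} (h : IsInduced M N R) (hN : TConn N) : TConn M := by
  rcases isEmpty_or_nonempty α with hα | hα
  · intro B D _ _ _
    have : B = D := by
      funext i
      ext x
      exact (IsEmpty.false x).elim
    rw [this]
  · refine (induced_aux (P := fun β M => M.Finite ∧ ∀ (_ : DecidableEq β), TConn M)
      (fun _ _ h => h.1)
      (fun _ _ M f hf h => ⟨⟨by rw [Matroid.map_ground]; exact h.1.ground_finite.image f⟩, fun _ => by
        classical
        exact tconn_map hf (h.2 _)⟩)
      (fun _ N M hm h => ⟨⟨h.1.ground_finite.subset hm.subset⟩, fun _ => by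
        have := h.1
        exact tconn_minor hm (h.2 _)⟩)
      (fun _ M' M G e he h => ⟨⟨by
        rw [he.2.2.1]
        exact h.1.ground_finite.insert e⟩, fun _ => by
        have := h.1
        exact FT56.tconn_princExt M' M G e he (h.2 _)⟩) h
      ⟨inferInstance, fun d => tconn_inst' _ d hN⟩).2 _

end Pool.Agent.Un25
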