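import Pool.Agent.Un25.Union
import Pool.Agent.EX18.MapC
import Pool.Agent.EX18.Minor
import Pool.Agent.EX18.Par

/-!
The union of two matroids with `TConn` has `TConn`.
-/

set_option autoImplicit false

namespace Pool.Agent.Un25

open Pool.Agent.EX18 Pool.Agent.EX91
open scoped Matroid

universe u

theorem tconn_inst {α : Type*} (d d' : DecidableEq α) {M : Matroid α} (h : @TConn α d M) : @TConn α d' M := by
  have e : d = d' := Subsingleton.elim d d'
  rw [← e]
  exact h

theorem tconn_union
    (hpe : ∀ {β : Type u} [DecidableEq β] (M' M : Matroid β) [M.Finite] (G : Set β) (e : β),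
      IsPrincExt M' M G e → TConn M → TConn M')
    {α : Type u} [DecidableEq α] {M M₁ M₂ : Matroid α} [M₁.Finite] [M₂.Finite]
    (h : IsUnion M M₁ M₂) (h₁ : TConn M₁) (h₂ : TConn M₂) : TConn M := by
  obtain ⟨M', ⟨_, hM'⟩, h'⟩ := union_aux
    (P := fun β M => M.Finite ∧ ∀ (_ : DecidableEq β), TConn M)
    (fun _ _ h => h.1)
    (fun _ _ M f hf h => ⟨⟨by rw [Matroid.map_ground]; exact h.1.ground_finite.image f⟩, fun _ => by
      classical
      exact tconn_map hf (h.2 _)⟩)
    (fun _ N M hm h => ⟨⟨h.1.ground_finite.subset hm.subset⟩, fun _ => by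
      have := h.1
      exact tconn_minor hm (h.2 _)⟩)
    (fun _ M N hd h h' => ⟨⟨by
      rw [Matroid.disjointSum_ground_eq]
      exact h.1.ground_finite.union h'.1.ground_finite⟩, fun _ => tconn_disjointSum hd (h.2 _) (h'.2 _)⟩)
    (fun _ M' M G e he h => ⟨⟨by
      rw [he.2.2.1]
      exact h.1.ground_finite.insert e⟩, fun _ => by
      have := h.1
      exact hpe M' M G e he (h.2 _)⟩)
    (M₁ := M₁) (M₂ := M₂)
    ⟨inferInstance, fun d => tconn_inst _ d h₁⟩ ⟨inferInstance, fun d => tconn_inst _ d h₂⟩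
  rw [IsUnion.unique h h']
  exact hM' _

end Pool.Agent.Un25
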