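import Pool.Agent.Un25.Union
import Pool.Agent.Un25.IndDefs

/-!
The matroid which is induced from a matroid of a class by a bipartite graph is in the class, if the class is closed
under isomorphism, minors and principal extensions.
-/

set_option autoImplicit false

namespace Pool.Agent.Un25

open Pool.Agent.EX18
open scoped Matroid

universe u v w

theorem induced_aux (P : ∀ ⦃β : Type u⦄, Matroid β → Prop)
    (hfin : ∀ ⦃β : Type u⦄ (M : Matroid β), P M → M.Finite)
    (hmap : ∀ ⦃β δ : Type u⦄ (M : Matroid β) (f : β → δ) (hf : M.E.InjOn f), P M → P (M.map f hf))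
    (hminor : ∀ ⦃β : Type u⦄ (N M : Matroid β), N ≤m M → P M → P N)
    (hpe : ∀ ⦃β : Type u⦄ (M' M : Matroid β) (G : Set β) (e : β), IsPrincExt M' M G e → P M → P M')
    {α β : Type u} [Nonempty α] {M : Matroid α} {N : Matroid β} [M.Finite] {R : α → β → Prop}
    (h : IsInduced M N R) (hN : P N) : P M := by
  classical
  have hfN := hfin N hN
  obtain ⟨a₀⟩ := (inferInstance : Nonempty α)
  obtain ⟨-, g₀, -, -, -⟩ := (h ∅).1 M.empty_indep
  have hinl : Function.Injective (Sum.inl : β → β ⊕ α) := Sum.inl_injective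
  have hinr : Function.Injective (Sum.inr : α → β ⊕ α) := Sum.inr_injective
  set N₀ : Matroid (β ⊕ α) := N.map Sum.inl hinl.injOn with hN₀
  have hP0 : P N₀ := hmap _ _ _ hN
  have hE0 : N₀.E = Sum.inl '' N.E := by rw [hN₀, Matroid.map_ground]
  have hI0 : ∀ J : Set β, N₀.Indep (Sum.inl '' J) ↔ N.Indep J := by
    intro J
    rw [hN₀, Matroid.map_indep_iff]
    constructor
    · rintro ⟨J', hJ', e⟩
      rwa [hinl.image_injective e]
    · exact fun hJ => ⟨J, hJ, rfl⟩
  obtain ⟨N', hPN, hNE, hNI⟩ := exists_multi (ι := α) (fun M => P M) (fun M h => hfin M h)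
    (fun M' M G e h h' => hpe M' M G e h h') N₀ hP0 (fun a => Sum.inl '' {b | b ∈ N.E ∧ R a b})
    (fun a x hx => by
      obtain ⟨b, hb, rfl⟩ := hx
      rw [hE0]
      exact ⟨b, hb.1, rfl⟩) Sum.inr (fun a h => by
      rw [hE0] at h
      obtain ⟨b, _, h⟩ := h
      simp at h) hinr M.ground_finite.toFinset
  rw [Set.Finite.coe_toFinset] at hNE hNI
  have hres : P (N' ↾ (Sum.inr '' M.E)) :=
    hminor _ _ (isMinor_restrict (by rw [hNE]; exact Set.subset_union_right)) hPN
  have hinj : (N' ↾ (Sum.inr '' M.E)).E.InjOn (Sum.elim (fun _ => a₀) id : β ⊕ α → α) := by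
    rw [Matroid.restrict_ground_eq]
    rintro _ ⟨a, _, rfl⟩ _ ⟨b, _, rfl⟩ h
    simp only [Sum.elim_inr, id_eq] at h
    rw [h]
  have him : ∀ I : Set α, ((Sum.elim (fun _ => a₀) id : β ⊕ α → α) '' (Sum.inr '' I) : Set α) = I := by
    intro I
    rw [Set.image_image]
    simp only [Sum.elim_inr, id_eq, Set.image_id']
  have key : (N' ↾ (Sum.inr '' M.E)).map (Sum.elim (fun _ => a₀) id) hinj = M := by
    refine Matroid.ext_indep ?_ ?_
    · rw [Matroid.map_ground, Matroid.restrict_ground_eq, him]
    · intro I _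
      rw [Matroid.map_indep_iff]
      constructor
      · rintro ⟨J, hJ, rfl⟩
        rw [Matroid.restrict_indep_iff] at hJ
        obtain ⟨T, hT, rfl⟩ := Set.subset_image_iff.1 hJ.2
        rw [him]
        obtain ⟨σ, hσ, h2, -, h4⟩ := (hNI ∅ (Set.empty_subset _) T hT).1
          (by rw [Set.empty_union]; exact hJ.1)
        rw [Set.empty_union] at h4
        have hg : ∀ i ∈ T, Sum.inl (Sum.elim id (fun _ => g₀ i) (σ i)) = σ i := by
          intro i hi
          obtain ⟨b, -, hb⟩ := hσ i hi
          rw [← hb]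
          rfl
        refine (h T).2 ⟨hT, fun i => Sum.elim id (fun _ => g₀ i) (σ i), ?_, ?_, ?_⟩
        · intro i hi j hj hij
          refine h2 hi hj ?_
          rw [← hg i hi, ← hg j hj]
          exact congrArg Sum.inl hij
        · intro i hi
          obtain ⟨b, hb, hb'⟩ := hσ i hi
          show R i (Sum.elim id (fun _ => g₀ i) (σ i))
          rw [← hb']
          exact hb.2
        · rw [← hI0, Set.image_image]
          rwa [Set.image_congr (fun i hi => hg i hi)]
      · intro hI
        obtain ⟨hIE, g, hg, hR, hgI⟩ := (h I).1 hI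
        refine ⟨Sum.inr '' I, ?_, (him I).symm⟩
        rw [Matroid.restrict_indep_iff]
        refine ⟨?_, Set.image_mono hIE⟩
        have h1 := (hNI ∅ (Set.empty_subset _) I hIE).2
        rw [Set.empty_union] at h1
        refine h1 ⟨fun i => Sum.inl (g i), ?_, ?_, Set.empty_disjoint _, ?_⟩
        · intro i hi
          exact ⟨g i, ⟨hgI.subset_ground ⟨i, hi, rfl⟩, hR i hi⟩, rfl⟩
        · intro i hi j hj hij
          exact hg hi hj (hinl hij)
        · rw [Set.empty_union]
          have h2 := (hI0 (g '' I)).2 hgI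
          rwa [Set.image_image] at h2
  rw [← key]
  exact hmap _ _ _ hres

end Pool.Agent.Un25
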