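import Pool.Agent.Un25.Ext
import Pool.Agent.EX18.QDefs

/-!
The union of two matroids of a class which is closed under isomorphism, direct sums, minors and principal
extensions is in the class.
-/

set_option autoImplicit false

namespace Pool.Agent.Un25

open Pool.Agent.EX18
open scoped Matroid

universe u v w

/-- Several principal extensions, along sets of the original matroid. -/
theorem exists_multi {γ ι : Type u} (P : Matroid γ → Prop)
    (hfin : ∀ M : Matroid γ, P M → M.Finite)
    (hpe : ∀ (M' M : Matroid γ) (G : Set γ) (e : γ), IsPrincExt M' M G e → P M → P M')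
    (N₀ : Matroid γ) (h₀ : P N₀) (G : ι → Set γ) (hG : ∀ i, G i ⊆ N₀.E) (e : ι → γ)
    (he : ∀ i, e i ∉ N₀.E) (hinj : Function.Injective e) (s : Finset ι) :
    ∃ N : Matroid γ, P N ∧ N.E = N₀.E ∪ e '' (s : Set ι) ∧
      ∀ X ⊆ N₀.E, ∀ T ⊆ (s : Set ι), (N.Indep (X ∪ e '' T) ↔
        ∃ σ : ι → γ, (∀ i ∈ T, σ i ∈ G i) ∧ Set.InjOn σ T ∧ Disjoint X (σ '' T) ∧
          N₀.Indep (X ∪ σ '' T)) := by
  classical
  induction s using Finset.induction_on with
  | empty =>
    refine ⟨N₀, h₀, by simp, ?_⟩
    intro X hX T hT
    have hT' : T = ∅ := by
      rw [Finset.coe_empty] at hT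
      exact Set.subset_empty_iff.1 hT
    subst hT'
    constructor
    · intro h
      exact ⟨e, by simp, by simp, by simp, by simpa using h⟩
    · rintro ⟨σ, -, -, -, h⟩
      simpa using h
  | insert k s hk ih =>
    obtain ⟨N, hN, hNE, hNI⟩ := ih
    have := hfin N hN
    have hek : e k ∉ N.E := by
      rw [hNE]
      rintro (h | ⟨i, hi, h⟩)
      · exact he k h
      · exact hk (by rw [← hinj h]; exact hi)
    have hGk : G k ⊆ N.E := (hG k).trans (by rw [hNE]; exact Set.subset_union_left)
    obtain ⟨N', hN'f, hN'E, hN'I⟩ := exists_ext N (G k) (e k)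
    have hP' : P N' := hpe N' N (G k) (e k) ⟨hGk, hek, hN'E, isBase_ext hGk hek hN'I⟩ hN
    refine ⟨N', hP', ?_, ?_⟩
    · rw [hN'E, hNE, Finset.coe_insert, Set.image_insert_eq, Set.union_insert]
    · intro X hX T hT
      rw [hN'I]
      have heX : ∀ i, e i ∉ X := fun i h => he i (hX h)
      by_cases hkT : k ∈ T
      · -- remove `k`
        have hT' : T \ {k} ⊆ (s : Set ι) := by
          intro i hi
          have h1 := hT hi.1
          rw [Finset.coe_insert] at h1
          rcases h1 with h1 | h1
          · exact absurd h1 hi.2
          · exact h1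
        have hins : T = insert k (T \ {k}) := by
          rw [Set.insert_sdiff_singleton, Set.insert_eq_of_mem hkT]
        have hmem : e k ∈ X ∪ e '' T := Or.inr ⟨k, hkT, rfl⟩
        have hrem : (X ∪ e '' T) \ {e k} = X ∪ e '' (T \ {k}) := by
          ext y
          constructor
          · rintro ⟨h1 | ⟨i, hi, rfl⟩, h2⟩
            · exact Or.inl h1
            · exact Or.inr ⟨i, ⟨hi, fun h3 => h2 (congrArg e h3)⟩, rfl⟩
          · rintro (h1 | ⟨i, hi, rfl⟩)
            · exact ⟨Or.inl h1, fun h2 => heX k (h2 ▸ h1)⟩
            · exact ⟨Or.inr ⟨i, hi.1, rfl⟩, fun h2 => hi.2 (hinj h2)⟩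
        have hiff : PI N (G k) (e k) (X ∪ e '' T) ↔ Opn N (G k) (X ∪ e '' (T \ {k})) := by
          unfold PI
          rw [hrem]
          constructor
          · rintro (⟨h1, -⟩ | ⟨-, h1⟩)
            · exact absurd hmem h1
            · exact h1
          · exact fun h => Or.inr ⟨hmem, h⟩
        rw [hiff]
        constructor
        · rintro ⟨g, hg, hgX, hgi⟩
          have hgX' : g ∉ X := fun h => hgX (Or.inl h)
          rw [← Set.insert_union] at hgi
          obtain ⟨σ, h1, h2, h3, h4⟩ := (hNI (insert g X) (Set.insert_subset (hG k hg) hX)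
            (T \ {k}) hT').1 hgi
          have hgs : g ∉ σ '' (T \ {k}) := fun h => Set.disjoint_left.1 h3 (Set.mem_insert _ _) h
          have hupd : ∀ i ∈ T \ {k}, Function.update σ k g i = σ i := by
            intro i hi
            exact Function.update_of_ne hi.2 _ _
          have himg : Function.update σ k g '' T = insert g (σ '' (T \ {k})) := by
            conv_lhs => rw [hins]
            rw [Set.image_insert_eq, Function.update_self]
            congr 1
            exact Set.image_congr hupd
          refine ⟨Function.update σ k g, ?_, ?_, ?_, ?_⟩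
          · intro i hi
            by_cases hik : i = k
            · subst hik
              rw [Function.update_self]
              exact hg
            · rw [Function.update_of_ne hik]
              exact h1 i ⟨hi, hik⟩
          · rw [hins, Set.injOn_insert (fun h => h.2 rfl)]
            refine ⟨?_, ?_⟩
            · intro i hi j hj hij
              rw [hupd i hi, hupd j hj] at hij
              exact h2 hi hj hij
            · rw [Function.update_self, Set.image_congr hupd]
              exact hgs
          · rw [himg, Set.disjoint_insert_right]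
            exact ⟨hgX', h3.mono_left (Set.subset_insert _ _)⟩
          · rw [himg, Set.union_insert, ← Set.insert_union]
            exact h4
        · rintro ⟨σ, h1, h2, h3, h4⟩
          have hgX : σ k ∉ X := fun h => Set.disjoint_left.1 h3 h ⟨k, hkT, rfl⟩
          have himg : σ '' T = insert (σ k) (σ '' (T \ {k})) := by
            conv_lhs => rw [hins]
            rw [Set.image_insert_eq]
          refine ⟨σ k, h1 k hkT, ?_, ?_⟩
          · rintro (h | ⟨i, hi, h⟩)
            · exact hgX h
            · exact he i (h ▸ hG k (h1 k hkT))
          · rw [← Set.insert_union]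
            refine (hNI (insert (σ k) X) (Set.insert_subset (hG k (h1 k hkT)) hX)
              (T \ {k}) hT').2 ⟨σ, fun i hi => h1 i hi.1, h2.mono Set.sdiff_subset, ?_, ?_⟩
            · rw [Set.disjoint_insert_left]
              refine ⟨?_, h3.mono_right (Set.image_mono Set.sdiff_subset)⟩
              rintro ⟨i, hi, h⟩
              exact hi.2 (h2 hi.1 hkT h)
            · rw [Set.insert_union, ← Set.union_insert, ← himg]
              exact h4
      · have hT' : T ⊆ (s : Set ι) := by
          intro i hi
          have h1 := hT hi
          rw [Finset.coe_insert] at h1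
          rcases h1 with h1 | h1
          · exact absurd (h1 ▸ hi) hkT
          · exact h1
        have hnm : e k ∉ X ∪ e '' T := by
          rintro (h | ⟨i, hi, h⟩)
          · exact heX k h
          · exact hkT (hinj h ▸ hi)
        rw [← hNI X hX T hT']
        constructor
        · rintro (⟨-, h⟩ | ⟨h, -⟩)
          · exact h
          · exact absurd h hnm
        · exact fun h => Or.inl ⟨hnm, h⟩

end Pool.Agent.Un25
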