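import Pool.Agent.Un25.Main

/-!
The union of two matroids of a class which is closed under isomorphism, direct sums, minors and principal
extensions is in the class.
-/

set_option autoImplicit false

namespace Pool.Agent.Un25

open Pool.Agent.EX18
open scoped Matroid

universe u v w

section

variable {α : Type u}

/-- The first copy. -/
def c1 (a : α) : α ⊕ (α ⊕ α) := Sum.inl a

/-- The second copy. -/
def c2 (a : α) : α ⊕ (α ⊕ α) := Sum.inr (Sum.inl a)

/-- The third copy. -/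
def c3 (a : α) : α ⊕ (α ⊕ α) := Sum.inr (Sum.inr a)

/-- The projection. -/
def pr : α ⊕ (α ⊕ α) → α := Sum.elim id (Sum.elim id id)

theorem c1_inj : Function.Injective (c1 : α → α ⊕ (α ⊕ α)) := Sum.inl_injective
theorem c2_inj : Function.Injective (c2 : α → α ⊕ (α ⊕ α)) :=
  Sum.inr_injective.comp Sum.inl_injective
theorem c3_inj : Function.Injective (c3 : α → α ⊕ (α ⊕ α)) :=
  Sum.inr_injective.comp Sum.inr_injective
theorem c12 (a b : α) : c1 a ≠ c2 b := by simp [c1, c2]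
theorem c13 (a b : α) : c1 a ≠ c3 b := by simp [c1, c3]
theorem c23 (a b : α) : c2 a ≠ c3 b := by simp [c2, c3]
theorem pr1 (a : α) : pr (c1 a) = a := rfl
theorem pr2 (a : α) : pr (c2 a) = a := rfl
theorem pr3 (a : α) : pr (c3 a) = a := rfl

theorem isMinor_restrict {β : Type*} {M : Matroid β} {R : Set β} (h : R ⊆ M.E) : M ↾ R ≤m M :=
  ⟨∅, M.E \ R, by rw [Matroid.contract_empty, Matroid.delete_compl h]⟩

theorem union_aux (P : ∀ ⦃β : Type u⦄, Matroid β → Prop)
    (hfin : ∀ ⦃β : Type u⦄ (M : Matroid β), P M → M.Finite)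
    (hmap : ∀ ⦃β δ : Type u⦄ (M : Matroid β) (f : β → δ) (hf : M.E.InjOn f), P M → P (M.map f hf))
    (hminor : ∀ ⦃β : Type u⦄ (N M : Matroid β), N ≤m M → P M → P N)
    (hsum : ∀ ⦃β : Type u⦄ (M N : Matroid β) (hd : Disjoint M.E N.E), P M → P N →
      P (M.disjointSum N hd))
    (hpe : ∀ ⦃β : Type u⦄ (M' M : Matroid β) (G : Set β) (e : β), IsPrincExt M' M G e → P M → P M')
    {M₁ M₂ : Matroid α} (h₁ : P M₁) (h₂ : P M₂) :
    ∃ M : Matroid α, P M ∧ IsUnion M M₁ M₂ := by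
  classical
  have hf1 := hfin M₁ h₁
  have hf2 := hfin M₂ h₂
  have hd : Disjoint (M₁.map c1 c1_inj.injOn).E (M₂.map c2 c2_inj.injOn).E := by
    rw [Matroid.map_ground, Matroid.map_ground, Set.disjoint_left]
    rintro _ ⟨a, _, rfl⟩ ⟨b, _, h⟩
    exact c12 a b h.symm
  set N₀ := (M₁.map c1 c1_inj.injOn).disjointSum (M₂.map c2 c2_inj.injOn) hd with hN₀
  have hP0 : P N₀ := hsum _ _ hd (hmap _ _ _ h₁) (hmap _ _ _ h₂)
  have hE0 : N₀.E = c1 '' M₁.E ∪ c2 '' M₂.E := by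
    rw [hN₀, Matroid.disjointSum_ground_eq, Matroid.map_ground, Matroid.map_ground]
  -- independent sets of `N₀`
  have hI0 : ∀ I₁ I₂ : Set α, N₀.Indep (c1 '' I₁ ∪ c2 '' I₂) ↔ M₁.Indep I₁ ∧ M₂.Indep I₂ := by
    intro I₁ I₂
    rw [hN₀, Matroid.disjointSum_indep_iff, Matroid.map_ground, Matroid.map_ground]
    have e1 : (c1 '' I₁ ∪ c2 '' I₂) ∩ c1 '' M₁.E = c1 '' (I₁ ∩ M₁.E) := by
      ext y
      constructor
      · rintro ⟨⟨a, ha, rfl⟩ | ⟨a, ha, rfl⟩, b, hb, h⟩
        · exact ⟨a, ⟨ha, c1_inj h ▸ hb⟩, rfl⟩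
        · exact absurd h (c12 b a)
      · rintro ⟨a, ha, rfl⟩
        exact ⟨Or.inl ⟨a, ha.1, rfl⟩, a, ha.2, rfl⟩
    have e2 : (c1 '' I₁ ∪ c2 '' I₂) ∩ c2 '' M₂.E = c2 '' (I₂ ∩ M₂.E) := by
      ext y
      constructor
      · rintro ⟨⟨a, ha, rfl⟩ | ⟨a, ha, rfl⟩, b, hb, h⟩
        · exact absurd h.symm (c12 a b)
        · exact ⟨a, ⟨ha, c2_inj h ▸ hb⟩, rfl⟩
      · rintro ⟨a, ha, rfl⟩
        exact ⟨Or.inr ⟨a, ha.1, rfl⟩, a, ha.2, rfl⟩
    rw [e1, e2]
    constructor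
    · rintro ⟨g1, g2, g3⟩
      have s1 : I₁ ⊆ M₁.E := by
        intro a ha
        rcases g3 (Or.inl ⟨a, ha, rfl⟩) with ⟨b, hb, h⟩ | ⟨b, _, h⟩
        · exact c1_inj h ▸ hb
        · exact absurd h.symm (c12 a b)
      have s2 : I₂ ⊆ M₂.E := by
        intro a ha
        rcases g3 (Or.inr ⟨a, ha, rfl⟩) with ⟨b, _, h⟩ | ⟨b, hb, h⟩
        · exact absurd h (c12 b a)
        · exact c2_inj h ▸ hb
      rw [Matroid.map_indep_iff] at g1 g2
      obtain ⟨J1, hJ1, e1'⟩ := g1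
      obtain ⟨J2, hJ2, e2'⟩ := g2
      have := c1_inj.image_injective e1'
      have := c2_inj.image_injective e2'
      subst J1 J2
      rw [Set.inter_eq_left.2 s1] at hJ1
      rw [Set.inter_eq_left.2 s2] at hJ2
      exact ⟨hJ1, hJ2⟩
    · rintro ⟨g1, g2⟩
      refine ⟨Matroid.map_indep_iff.2 ⟨_, g1.subset Set.inter_subset_left, rfl⟩,
        Matroid.map_indep_iff.2 ⟨_, g2.subset Set.inter_subset_left, rfl⟩, ?_⟩
      exact Set.union_subset_union (Set.image_mono g1.subset_ground) (Set.image_mono g2.subset_ground)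
  -- the extension
  obtain ⟨N, hPN, hNE, hNI⟩ := exists_multi (ι := α) (fun M => P M) (fun M h => hfin M h)
    (fun M' M G e h h' => hpe M' M G e h h') N₀ hP0 (fun a => {x | x ∈ N₀.E ∧ (x = c1 a ∨ x = c2 a)})
    (fun a x hx => hx.1) c3 (fun a h => by
      rw [hE0] at h
      rcases h with ⟨b, _, h⟩ | ⟨b, _, h⟩
      · exact c13 b a h
      · exact c23 b a h) c3_inj (M₁.ground_finite.union M₂.ground_finite).toFinset
  rw [Set.Finite.coe_toFinset] at hNE hNI
  have hres : P (N ↾ (c3 '' (M₁.E ∪ M₂.E))) :=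
    hminor _ _ (isMinor_restrict (by rw [hNE]; exact Set.subset_union_right)) hPN
  have hinj : (N ↾ (c3 '' (M₁.E ∪ M₂.E))).E.InjOn (pr : α ⊕ (α ⊕ α) → α) := by
    rw [Matroid.restrict_ground_eq]
    rintro _ ⟨a, _, rfl⟩ _ ⟨b, _, rfl⟩ h
    exact congrArg c3 h
  have him : ∀ I : Set α, (pr '' (c3 '' I) : Set α) = I := by
    intro I
    rw [Set.image_image]
    simp only [pr3, Set.image_id']
  refine ⟨(N ↾ (c3 '' (M₁.E ∪ M₂.E))).map pr hinj, hmap _ _ _ hres, ?_, ?_⟩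
  · rw [Matroid.map_ground, Matroid.restrict_ground_eq, him]
  · intro I
    rw [Matroid.map_indep_iff]
    constructor
    · rintro ⟨J, hJ, rfl⟩
      rw [Matroid.restrict_indep_iff] at hJ
      obtain ⟨T, hT, rfl⟩ := Set.subset_image_iff.1 hJ.2
      rw [him]
      have h1 := (hNI ∅ (Set.empty_subset _) T hT).1 (by rw [Set.empty_union]; exact hJ.1)
      obtain ⟨σ, hσ, -, -, h4⟩ := h1
      rw [Set.empty_union] at h4
      have hsub1 : {i ∈ T | σ i = c1 i} ∪ {i ∈ T | σ i = c2 i} = T := by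
        ext i
        constructor
        · rintro (h | h)
          · exact h.1
          · exact h.1
        · intro hi
          rcases (hσ i hi).2 with h | h
          · exact Or.inl ⟨hi, h⟩
          · exact Or.inr ⟨hi, h⟩
      have hσT : c1 '' {i ∈ T | σ i = c1 i} ∪ c2 '' {i ∈ T | σ i = c2 i} ⊆ σ '' T := by
        rintro _ (⟨i, hi, rfl⟩ | ⟨i, hi, rfl⟩)
        · exact ⟨i, hi.1, hi.2⟩
        · exact ⟨i, hi.1, hi.2⟩
      obtain ⟨h5, h6⟩ := (hI0 _ _).1 (h4.subset hσT)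
      exact ⟨_, _, h5, h6, hsub1.symm⟩
    · rintro ⟨I₁, I₂, g1, g2, rfl⟩
      have hT : I₁ ∪ I₂ ⊆ M₁.E ∪ M₂.E := Set.union_subset_union g1.subset_ground g2.subset_ground
      refine ⟨c3 '' (I₁ ∪ I₂), ?_, (him _).symm⟩
      rw [Matroid.restrict_indep_iff]
      refine ⟨?_, Set.image_mono hT⟩
      have h1 := (hNI ∅ (Set.empty_subset _) (I₁ ∪ I₂) hT).2
      rw [Set.empty_union] at h1
      refine h1 ⟨fun i => if i ∈ I₁ then c1 i else c2 i, ?_, ?_, Set.empty_disjoint _, ?_⟩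
      · intro i hi
        by_cases h : i ∈ I₁
        · simp only [h, if_true]
          refine ⟨?_, Or.inl rfl⟩
          rw [hE0]
          exact Or.inl ⟨i, g1.subset_ground h, rfl⟩
        · simp only [h, if_false]
          refine ⟨?_, Or.inr rfl⟩
          rw [hE0]
          exact Or.inr ⟨i, g2.subset_ground (hi.resolve_left h), rfl⟩
      · intro i _ j _ hij
        have h := congrArg pr hij
        have hh : ∀ i : α, pr (if i ∈ I₁ then c1 i else c2 i) = i := by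
          intro i
          split_ifs
          · rfl
          · rfl
        simpa only [hh] using h
      · rw [Set.empty_union]
        refine ((hI0 I₁ I₂).2 ⟨g1, g2⟩).subset ?_
        rintro _ ⟨i, hi, rfl⟩
        by_cases h : i ∈ I₁
        · simp only [h, if_true]
          exact Or.inl ⟨i, h, rfl⟩
        · simp only [h, if_false]
          exact Or.inr ⟨i, hi.resolve_left h, rfl⟩

theorem IsUnion.unique {M M' M₁ M₂ : Matroid α} (h : IsUnion M M₁ M₂) (h' : IsUnion M' M₁ M₂) :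
    M = M' := by
  refine Matroid.ext_indep (h.1.trans h'.1.symm) ?_
  intro I _
  rw [h.2, h'.2]

end

end Pool.Agent.Un25
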