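import Pool.Agent.Un25.Union
import Pool.Agent.EX18.QOld

/-!
The union of two matroids of the class `QClass` is in the class.
-/

set_option autoImplicit false

namespace Pool.Agent.Un25

open Pool.Agent.EX18
open scoped Matroid

universe u v w

theorem qclass_finite {α : Type u} {M : Matroid α} (h : QClass.{u, v, w} M) : M.Finite := by
  induction h with
  | rep M hfin _ => exact hfin
  | small M hfin _ => exact hfin
  | six M hfin _ => exact hfin
  | map M f hf _ ih =>
    refine ⟨?_⟩
    rw [Matroid.map_ground]
    exact ih.ground_finite.image f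
  | dual M _ ih => have := ih; infer_instance
  | minor N M hm _ ih => exact ⟨ih.ground_finite.subset hm.subset⟩
  | sum M N hd _ _ ih1 ih2 =>
    refine ⟨?_⟩
    rw [Matroid.disjointSum_ground_eq]
    exact ih1.ground_finite.union ih2.ground_finite
  | twoSum M M₁ M₂ p hp _ _ ih1 ih2 =>
    refine ⟨?_⟩
    rw [hp.2.2.2.1]
    exact (ih1.ground_finite.union ih2.ground_finite).subset Set.sdiff_subset
  | princExt M' M G e he _ ih =>
    refine ⟨?_⟩
    rw [he.2.2.1]
    exact ih.ground_finite.insert e
  | split M M₁ M₂ hfin G a hs _ _ _ _ => exact hfin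

/-- The union of two matroids in the class is in the class. -/
theorem qclass_union {α : Type u} {M M₁ M₂ : Matroid α} (h : IsUnion M M₁ M₂)
    (h₁ : QClass.{u, v, w} M₁) (h₂ : QClass.{u, v, w} M₂) : QClass.{u, v, w} M := by
  obtain ⟨M', hM', h'⟩ := union_aux (fun ⦃_⦄ M => QClass.{u, v, w} M) (fun _ _ h => qclass_finite h)
    (fun _ _ M f hf h => QClass.map M f hf h) (fun _ N M hm h => QClass.minor N M hm h)
    (fun _ M N hd h h' => QClass.sum M N hd h h')
    (fun _ M' M G e he h => QClass.princExt M' M G e he h) h₁ h₂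
  rw [IsUnion.unique h h']
  exact hM'

/-- Any two matroids in the class have a union. -/
theorem exists_union {α : Type u} {M₁ M₂ : Matroid α}
    (h₁ : QClass.{u, v, w} M₁) (h₂ : QClass.{u, v, w} M₂) :
    ∃ M : Matroid α, QClass.{u, v, w} M ∧ IsUnion M M₁ M₂ :=
  union_aux (fun ⦃_⦄ M => QClass.{u, v, w} M) (fun _ _ h => qclass_finite h)
    (fun _ _ M f hf h => QClass.map M f hf h) (fun _ N M hm h => QClass.minor N M hm h)
    (fun _ M N hd h h' => QClass.sum M N hd h h')
    (fun _ M' M G e he h => QClass.princExt M' M G e he h) h₁ h₂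

end Pool.Agent.Un25
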